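import Pool.Agent.V1164.BRW.Crit

open Filter Topology MeasureTheory ProbabilityTheory
open scoped ENNReal
open Pool.Agent.V1164.BRW

namespace Pool.Agent.Results.MP_c15531_pr.DriftExample

/-- `γ` is an automorphism of the branching random walk: `μ_{γx}(f ∘ γ⁻¹) = μ_x(f)` -/
def IsAutomorphism {X : Type*} (μ : X → PMF (X →₀ ℕ)) (γ : X ≃ X) : Prop :=
  ∀ x f, μ (γ x) (f.equivMapDomain γ) = μ x f

/-- the automorphism group has finitely many orbits -/
def QuasiTransitive {X : Type*} (μ : X → PMF (X →₀ ℕ)) : Prop :=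
  ∃ R : Set X, R.Finite ∧ ∀ x, ∃ r ∈ R, ∃ γ : X ≃ X, IsAutomorphism μ γ ∧ γ r = x

/-- two children at `x+1` with probability `9/10`, one child at `x-1` with probability `1/10` -/
noncomputable def mu (x : ℤ) : PMF (ℤ →₀ ℕ) :=
  two (9 / 10) (by rw [div_le_one (by norm_num)]; norm_num)
    (Finsupp.single (x + 1) 2) (Finsupp.single (x - 1) 1)

theorem mu_ne {x : ℤ} {f : ℤ →₀ ℕ} (h : mu x f ≠ 0) :
    f = Finsupp.single (x + 1) 2 ∨ f = Finsupp.single (x - 1) 1 := two_ne_zero h

theorem edge_right (x : ℤ) : Edge mu x (x + 1) :=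
  ⟨_, two_left_ne (by norm_num), by simp⟩

theorem edge_left (x : ℤ) : Edge mu x (x - 1) :=
  ⟨_, two_right_ne (by rw [div_lt_one (by norm_num)]; norm_num), by simp⟩

theorem irr : Irreducible mu := by
  have h1 : ∀ (n : ℕ) (x : ℤ), Relation.ReflTransGen (Edge mu) x (x + n) := by
    intro n x
    induction n with
    | zero => simpa using Relation.ReflTransGen.refl
    | succ n ih =>
      refine ih.tail ?_
      have := edge_right (x + n)
      rw [add_assoc] at this
      exact_mod_cast this
  have h2 : ∀ (n : ℕ) (x : ℤ), Relation.ReflTransGen (Edge mu) x (x - n) := by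
    intro n x
    induction n with
    | zero => simpa using Relation.ReflTransGen.refl
    | succ n ih =>
      refine ih.tail ?_
      have := edge_left (x - n)
      have e : x - (n : ℤ) - 1 = x - ((n + 1 : ℕ) : ℤ) := by push_cast; ring
      rwa [e] at this
  intro x y
  rcases le_total x y with h | h
  · have := h1 (y - x).toNat x
    rwa [Int.toNat_of_nonneg (by omega), add_sub_cancel] at this
  · have := h2 (x - y).toNat x
    rwa [Int.toNat_of_nonneg (by omega), sub_sub_cancel] at this

theorem quasi : QuasiTransitive mu := by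
  refine ⟨{0}, Set.finite_singleton 0, fun x => ⟨0, rfl, Equiv.addRight x, ?_, by simp⟩⟩
  intro y f
  simp only [mu, two, PMF.map_apply]
  apply tsum_congr
  intro t
  have e : ∀ t : Bool, (cond t (Finsupp.single (Equiv.addRight x y + 1) 2)
      (Finsupp.single (Equiv.addRight x y - 1) 1) : ℤ →₀ ℕ) =
      (cond t (Finsupp.single (y + 1) 2) (Finsupp.single (y - 1) 1) : ℤ →₀ ℕ).equivMapDomain
        (Equiv.addRight x) := by
    intro t
    cases t
    · simp only [cond_false, Finsupp.equivMapDomain_single, Equiv.coe_addRight]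
      congr 1; ring
    · simp only [cond_true, Finsupp.equivMapDomain_single, Equiv.coe_addRight]
      congr 1; ring
  have hinj : Function.Injective
      (fun g : ℤ →₀ ℕ => g.equivMapDomain (Equiv.addRight x)) := by
    intro g g' h
    ext v
    have := DFunLike.congr_fun h (Equiv.addRight x v)
    simpa [Finsupp.equivMapDomain_apply] using this
  rw [e]
  congr 1
  exact propext ⟨fun h => hinj h, fun h => by rw [h]⟩

/-- the weight `4^{-x}` -/
noncomputable def h (x : ℤ) : ℝ≥0∞ := ENNReal.ofReal ((4 : ℝ) ^ (-x))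

theorem h_ne_zero (x : ℤ) : h x ≠ 0 := by
  unfold h
  rw [Ne, ENNReal.ofReal_eq_zero, not_le]
  positivity

theorem h_ne_top (x : ℤ) : h x ≠ ∞ := ENNReal.ofReal_ne_top

theorem lin_single' (g : ℤ → ℝ≥0∞) (x : ℤ) (k : ℕ) :
    lin g (Finsupp.single x k) = k * g x := by
  simp [lin]

theorem hM (y : ℤ) : Mn mu h y ≤ ENNReal.ofReal (17 / 20) * h y := by
  unfold Mn mu
  rw [tsum_two, lin_single', lin_single']
  have hp : (0 : ℝ) < 4 ^ (-y) := by positivity
  have e1 : h (y + 1) = ENNReal.ofReal (4 ^ (-y) / 4) := by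
    unfold h; congr 1
    rw [show -(y + 1) = -y - 1 by ring, zpow_sub_one₀ (by norm_num)]; ring
  have e2 : h (y - 1) = ENNReal.ofReal (4 ^ (-y) * 4) := by
    unfold h; congr 1
    rw [show -(y - 1) = -y + 1 by ring, zpow_add_one₀ (by norm_num)]
  have e3 : (((9 / 10 : NNReal)) : ℝ≥0∞) = ENNReal.ofReal (9 / 10) := by
    rw [ENNReal.ofReal, Real.toNNReal_div (by norm_num)]
    norm_num
  have e4 : (((1 - 9 / 10 : NNReal)) : ℝ≥0∞) = ENNReal.ofReal (1 / 10) := by
    rw [ENNReal.ofReal]
    congr 1
    apply NNReal.eq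
    rw [NNReal.coe_sub (by rw [div_le_one (by norm_num)]; norm_num),
      Real.coe_toNNReal _ (by norm_num)]
    push_cast
    norm_num
  rw [e1, e2, e3, e4]
  unfold h
  rw [show ((2 : ℕ) : ℝ≥0∞) = ENNReal.ofReal 2 by simp,
    show ((1 : ℕ) : ℝ≥0∞) = ENNReal.ofReal 1 by simp]
  rw [← ENNReal.ofReal_mul (by norm_num), ← ENNReal.ofReal_mul (by norm_num),
    ← ENNReal.ofReal_mul (by norm_num), ← ENNReal.ofReal_mul (by norm_num),
    ← ENNReal.ofReal_mul (by norm_num),
    ← ENNReal.ofReal_add (by positivity) (by positivity)]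
  apply ENNReal.ofReal_le_ofReal
  nlinarith

theorem hρ : ENNReal.ofReal (17 / 20) < 1 := by
  rw [ENNReal.ofReal_lt_one]; norm_num

/-- almost surely, only finitely many particles ever sit at or below `a` -/
theorem ae_finite_below (x a : ℤ) :
    ∀ᵐ ω ∂(law mu), {l | Used x ω l ∧ l.2.1 ≤ a}.Finite := by
  classical
  have := ae_finite_special (μ := mu) (h := h) (C := ENNReal.ofReal ((4 : ℝ) ^ a)) hM
    (fun y => if y ≤ a then Set.univ else ∅) (fun y => ?_) x ?_
  · filter_upwards [this] with ω hω
    refine hω.subset ?_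
    rintro l ⟨h1, h2⟩
    exact ⟨h1, by simp [h2]⟩
  · by_cases hy : y ≤ a
    · simp only [hy, if_true, Set.indicator_univ, Pi.one_apply, mul_one]
      rw [(mu y).tsum_coe]
      unfold h
      rw [← ENNReal.ofReal_mul (by positivity), ← zpow_add₀ (by norm_num)]
      rw [ENNReal.one_le_ofReal]
      exact one_le_zpow₀ (by norm_num) (by omega)
    · simp [hy]
  · apply ENNReal.mul_ne_top ENNReal.ofReal_ne_top
    apply ENNReal.mul_ne_top _ (h_ne_top x)
    apply ENNReal.inv_ne_top.2
    exact (tsub_pos_of_lt hρ).ne'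

/-- extinction in sets bounded above -/
theorem q_bdd {A : Set ℤ} {a : ℤ} (hA : ∀ y ∈ A, y ≤ a) (x : ℤ) : q mu A x = 1 := by
  have h1 : ({ω | ∀ᶠ n in atTop, ∀ y ∈ A, eta x n ω y = 0} : Set (Draws ℤ)) =ᵐ[law mu]
      Set.univ := by
    rw [ae_eq_univ]
    refine measure_mono_null ?_ (ae_finite_below x a)
    intro ω hω hfin
    apply hω
    change {l | Used x ω l ∧ l.2.1 ≤ a}.Finite at hfin
    obtain ⟨N, hN⟩ := (hfin.image fun l => l.1).bddAbove
    show ∀ᶠ n in atTop, ∀ y ∈ A, eta x n ω y = 0
    filter_upwards [eventually_gt_atTop N] with n hn y hy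
    by_contra hne
    have : n ≤ N := hN ⟨(n, y, 0), ⟨used_zero hne, hA y hy⟩, rfl⟩
    omega
  unfold q
  rw [Measure.real, measure_congr h1]
  simp

/-- survival in sets unbounded above -/
theorem q_unbdd {A : Set ℤ} (hA : ∀ a : ℤ, ∃ y ∈ A, a < y) (x : ℤ) : q mu A x = 0 := by
  have h1 : (law mu) {ω | ∀ᶠ n in atTop, ∀ y ∈ A, eta x n ω y = 0} = 0 := by
    have hall : ∀ᵐ ω ∂(law mu), (∀ l, mu l.2.1 (ω l) ≠ 0) ∧
        ∀ a : ℤ, {l | Used x ω l ∧ l.2.1 ≤ a}.Finite :=
      (ae_support mu).and (ae_all_iff.2 fun a => ae_finite_below x a)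
    refine measure_mono_null ?_ hall
    rintro ω hω ⟨hsup, hfin⟩
    rw [Set.mem_ofPred_eq, eventually_atTop] at hω
    obtain ⟨N, hN⟩ := hω
    -- positions are at most `x + n`
    have hpos : ∀ n y, eta x n ω y ≠ 0 → y ≤ x + n := by
      intro n
      induction n with
      | zero =>
        intro y hy
        simp only [eta, Finsupp.single_apply] at hy
        split_ifs at hy with hxy
        · omega
        · exact absurd rfl hy
      | succ n ih =>
        intro v hv
        obtain ⟨y, i, hu, hyv⟩ := exists_parent hv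
        have h2 := ih y (eta_ne_of_used hu)
        rcases mu_ne (hsup (n, y, i)) with h3 | h3
        · rw [h3, Finsupp.single_apply] at hyv
          split_ifs at hyv with hxy
          · change y + 1 = v at hxy
            push_cast; omega
          · exact absurd rfl hyv
        · rw [h3, Finsupp.single_apply] at hyv
          split_ifs at hyv with hxy
          · change y - 1 = v at hxy
            push_cast; omega
          · exact absurd rfl hyv
    have hchild : ∀ n y, eta x n ω y ≠ 0 →
        eta x (n + 1) ω (y + 1) ≠ 0 ∨ eta x (n + 1) ω (y - 1) ≠ 0 := by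
      intro n y hy
      have hu := used_zero hy
      rcases mu_ne (hsup (n, y, 0)) with h3 | h3
      · left
        have h4 := le_eta_succ hu (y + 1)
        rw [h3] at h4
        simp only [Finsupp.single_eq_same] at h4
        omega
      · right
        have h4 := le_eta_succ hu (y - 1)
        rw [h3] at h4
        simp only [Finsupp.single_eq_same] at h4
        omega
    obtain ⟨a, haA, ha⟩ := hA (x + N)
    have hne : {l | Used x ω l ∧ l.2.1 ≤ a}.Nonempty :=
      ⟨(0, x, 0), used_zero (eta_zero x ω), by show x ≤ a; omega⟩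
    obtain ⟨⟨n, y, i⟩, ⟨hu, hy⟩, hmax⟩ := Set.exists_max_image _ (fun l => l.1) (hfin a) hne
    have hy' : y ≤ a := hy
    have hya : y = a := by
      by_contra hne'
      rcases hchild n y (eta_ne_of_used hu) with h2 | h2
      · have := hmax (n + 1, y + 1, 0) ⟨used_zero h2, by show y + 1 ≤ a; omega⟩
        simp at this
      · have := hmax (n + 1, y - 1, 0) ⟨used_zero h2, by show y - 1 ≤ a; omega⟩
        simp at this
    have h2 := eta_ne_of_used hu
    have h3 := hpos n y h2
    have h4 : N ≤ n := by omega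
    exact h2 (hN n h4 y (hya ▸ haA))
  unfold q
  rw [Measure.real, h1]
  rfl

theorem EG_eq : EG mu = {fun _ => 0, fun _ => 1} := by
  ext z
  constructor
  · rintro ⟨A, rfl⟩
    by_cases hA : ∃ a : ℤ, ∀ y ∈ A, y ≤ a
    · right
      obtain ⟨a, ha⟩ := hA
      funext x
      exact q_bdd ha x
    · left
      push Not at hA
      funext x
      exact q_unbdd hA x
  · rintro (rfl | rfl)
    · refine ⟨Set.univ, funext fun x => q_unbdd (fun a => ⟨a + 1, Set.mem_univ _, by omega⟩) x⟩
    · refine ⟨∅, funext fun x => q_bdd (a := 0) (fun y hy => absurd hy (Set.notMem_empty y)) x⟩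

/-- **Positive answer to Q1, in the strong form.** -/
theorem result : ∃ μ : ℤ → PMF (ℤ →₀ ℕ), Irreducible μ ∧ QuasiTransitive μ ∧
    (∀ x, q μ {x} = fun _ => 1) ∧ (EG μ).ncard = 2 ∧ ¬ (FG μ \ EG μ).Countable := by
  have hfin : (EG mu).Finite := by rw [EG_eq]; exact Set.toFinite _
  refine ⟨mu, irr, quasi, fun x => funext fun y => q_bdd (a := x) (fun z hz => ?_) y, ?_, ?_⟩
  · rw [Set.mem_singleton_iff] at hz
    exact hz.le
  · rw [EG_eq, Set.ncard_pair]
    intro h
    have := congrFun h 0
    norm_num at this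
  · intro hc
    have h1 : FG mu ⊆ (FG mu \ EG mu) ∪ EG mu := by
      intro z hz
      by_cases h : z ∈ EG mu
      · right; exact h
      · left; exact ⟨hz, h⟩
    refine FG_not_countable hρ h_ne_zero h_ne_top hM (fun x => ?_) 0
      ((hc.union hfin.countable).mono h1)
    by_contra hne
    rcases mu_ne hne with h2 | h2
    · have := DFunLike.congr_fun h2 (x + 1)
      simp at this
    · have := DFunLike.congr_fun h2 (x - 1)
      simp at this

end Pool.Agent.Results.MP_c15531_pr.DriftExample
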